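import Pool.Agent.H634R2.Clique
import Pool.Agent.NPC.Dec

/-!
# The red-blue cut problem for digraphs is NP-complete

Input: a finite digraph whose arcs are red or blue, and numbers `r`, `b`.  Question: is there a
nonempty proper set `X` of vertices such that at most `r` red and at most `b` blue arcs leave `X`?

Idea.  Let `N` be large.  A set `S` of `N` vertices which receives an arc from every other vertex,
and a set `T` of `N` vertices which sends an arc to every other vertex, force `S ⊆ X` and
`X ∩ T = ∅` for every nonempty proper `X` that is left by fewer than `N - 1` red arcs.  So the cuts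
become cuts separating `S` from `T`.  For a graph with `m` edges, add a red arc from every vertex of
the graph to `T`, a vertex for every edge, a blue arc from `S` to it and two blue arcs from it to
the ends of the edge.  Then a set `X` with `U` as its set of vertices of the graph is left by `|U|`
red arcs and (for the best choice of `X` with this `U`) by as many blue arcs as there are edges not
inside `U`.  With `r = k` and `b = m - (k choose 2)` this is the clique problem.
-/

set_option autoImplicit false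

namespace Pool.Agent.NPC.RedBlue129

open Pool.Agent.NPC.H634R2

/-- A coloured arc: its tail, its head, and its colour (`true` is red, `false` is blue). -/
abbrev Arc : Type := (ℕ × ℕ) × Bool

/-- An arc-coloured digraph, given by the list of its vertices and the list of its arcs. -/
abbrev Dig : Type := List ℕ × List Arc

/-- An input: an arc-coloured digraph and the two bounds `r` and `b` (written in binary). -/
abbrev Inst : Type := Dig × (ℕ × ℕ)

/-- The lists describe a digraph: every vertex is listed once, and the tail and the head of every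
arc are vertices.  Loops and parallel arcs are allowed. -/
def IsDigraph (D : Dig) : Prop := D.1.Nodup ∧ ∀ a ∈ D.2, a.1.1 ∈ D.1 ∧ a.1.2 ∈ D.1

/-- There are no loops, and no two arcs with the same tail and the same head. -/
def IsSimple (D : Dig) : Prop := (∀ a ∈ D.2, a.1.1 ≠ a.1.2) ∧ (D.2.map Prod.fst).Nodup

/-- The arc `a` has colour `c`, its tail is in `X` and its head is not in `X`. -/
def leaves (X : Finset ℕ) (c : Bool) (a : Arc) : Bool :=
  decide (a.2 = c) && decide (a.1.1 ∈ X) && !decide (a.1.2 ∈ X)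

/-- The number of arcs of colour `c` in the cut `δ⁺(X)`. -/
def cutSize (D : Dig) (c : Bool) (X : Finset ℕ) : ℕ := D.2.countP (leaves X c)

/-- **The red-blue cut problem for digraphs**: the cut `δ⁺(X)` of some nonempty proper subset `X` of
the set of the vertices contains at most `r` red arcs and at most `b` blue arcs. -/
def RedBlueCut (I : Inst) : Prop :=
  IsDigraph I.1 ∧ ∃ X : Finset ℕ, X.Nonempty ∧ X ⊂ I.1.1.toFinset ∧
    cutSize I.1 true X ≤ I.2.1 ∧ cutSize I.1 false X ≤ I.2.2

/-! ### The reduction -/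

/-- the size of the two forcing sets -/
def nn (E : List (ℕ × ℕ)) : ℕ := E.length + 3

/-- the vertices of the digraph -/
def verts (V : List ℕ) (E : List (ℕ × ℕ)) : List ℕ :=
  (List.range (nn E)).map (fun i => 4 * i) ++ ((List.range (nn E)).map (fun i => 4 * i + 1) ++
    (V.map (fun v => 4 * v + 2) ++ (List.range E.length).map (fun j => 4 * j + 3)))

/-- the arcs into the first forcing set -/
def arcsS (V : List ℕ) (E : List (ℕ × ℕ)) : List Arc :=
  (List.range (nn E)).flatMap fun i =>
    ((verts V E).filter fun v => !decide (v = 4 * i)).map fun v => ((v, 4 * i), true)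

/-- the arcs out of the second forcing set -/
def arcsT (V : List ℕ) (E : List (ℕ × ℕ)) : List Arc :=
  (List.range (nn E)).flatMap fun j =>
    ((verts V E).filter fun v => !decide (v % 4 = 0) && !decide (v = 4 * j + 1)).map
      fun v => ((4 * j + 1, v), true)

/-- the arcs to the vertices for the edges -/
def arcs0 (E : List (ℕ × ℕ)) : List Arc :=
  (List.range E.length).map fun j => ((0, 4 * j + 3), false)

/-- the arcs from the vertices for the edges to the first ends -/
def arcsE1 (E : List (ℕ × ℕ)) : List Arc :=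
  E.zipIdx.map fun p => ((4 * p.2 + 3, 4 * p.1.1 + 2), false)

/-- the arcs from the vertices for the edges to the second ends -/
def arcsE2 (E : List (ℕ × ℕ)) : List Arc :=
  E.zipIdx.map fun p => ((4 * p.2 + 3, 4 * p.1.2 + 2), false)

/-- the arcs out of the vertices of the graph -/
def arcsW (V : List ℕ) : List Arc := V.map fun v => ((4 * v + 2, 1), true)

/-- the arcs of the digraph -/
def arcs (V : List ℕ) (E : List (ℕ × ℕ)) : List Arc :=
  arcsS V E ++ (arcsT V E ++ (arcs0 E ++ (arcsE1 E ++ (arcsE2 E ++ arcsW V))))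

section
variable {V : List ℕ} {E : List (ℕ × ℕ)}

theorem mem_verts {x : ℕ} : x ∈ verts V E ↔ (∃ i < nn E, x = 4 * i) ∨ (∃ i < nn E, x = 4 * i + 1) ∨
    (∃ v ∈ V, x = 4 * v + 2) ∨ ∃ j < E.length, x = 4 * j + 3 := by
  simp only [verts, List.mem_append, List.mem_map, List.mem_range, eq_comm]

theorem verts_nodup (hV : V.Nodup) : (verts V E).Nodup := by
  unfold verts
  refine List.Nodup.append ?_ (List.Nodup.append ?_ (List.Nodup.append ?_ ?_ ?_) ?_) ?_
  · exact List.Nodup.map (fun a b h => by omega) List.nodup_range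
  · exact List.Nodup.map (fun a b h => by omega) List.nodup_range
  · exact List.Nodup.map (fun a b h => by omega) hV
  · exact List.Nodup.map (fun a b h => by omega) List.nodup_range
  · intro x h1 h2
    simp only [List.mem_map] at h1 h2
    obtain ⟨a, _, h1⟩ := h1
    obtain ⟨b, _, h2⟩ := h2
    omega
  · intro x h1 h2
    simp only [List.mem_map, List.mem_append] at h1 h2
    obtain ⟨a, _, h1⟩ := h1
    rcases h2 with ⟨b, _, h2⟩ | ⟨b, _, h2⟩ <;> omega
  · intro x h1 h2
    simp only [List.mem_map, List.mem_append] at h1 h2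
    obtain ⟨a, _, h1⟩ := h1
    rcases h2 with ⟨b, _, h2⟩ | ⟨b, _, h2⟩ | ⟨b, _, h2⟩ <;> omega

theorem mem_arcsS {a : Arc} : a ∈ arcsS V E ↔
    ∃ i < nn E, ∃ v ∈ verts V E, v ≠ 4 * i ∧ a = ((v, 4 * i), true) := by
  simp only [arcsS, List.mem_flatMap, List.mem_map, List.mem_filter, List.mem_range,
    Bool.not_eq_true', decide_eq_false_iff_not]
  constructor
  · rintro ⟨i, hi, v, ⟨hv, hne⟩, rfl⟩
    exact ⟨i, hi, v, hv, hne, rfl⟩
  · rintro ⟨i, hi, v, hv, hne, rfl⟩
    exact ⟨i, hi, v, ⟨hv, hne⟩, rfl⟩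

theorem mem_arcsT {a : Arc} : a ∈ arcsT V E ↔
    ∃ j < nn E, ∃ v ∈ verts V E, v % 4 ≠ 0 ∧ v ≠ 4 * j + 1 ∧ a = ((4 * j + 1, v), true) := by
  simp only [arcsT, List.mem_flatMap, List.mem_map, List.mem_filter, List.mem_range,
    Bool.and_eq_true, Bool.not_eq_true', decide_eq_false_iff_not]
  constructor
  · rintro ⟨i, hi, v, ⟨hv, hne⟩, rfl⟩
    exact ⟨i, hi, v, hv, hne.1, hne.2, rfl⟩
  · rintro ⟨i, hi, v, hv, hne, hne2, rfl⟩
    exact ⟨i, hi, v, ⟨hv, hne, hne2⟩, rfl⟩

theorem mem_arcs0 {a : Arc} : a ∈ arcs0 E ↔ ∃ j < E.length, a = ((0, 4 * j + 3), false) := by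
  simp only [arcs0, List.mem_map, List.mem_range, eq_comm]

theorem mem_arcsE1 {a : Arc} : a ∈ arcsE1 E ↔
    ∃ (j : ℕ) (e : ℕ × ℕ), E[j]? = some e ∧ a = ((4 * j + 3, 4 * e.1 + 2), false) := by
  simp only [arcsE1, List.mem_map, List.mem_zipIdx_iff_getElem?, eq_comm]
  constructor
  · rintro ⟨p, hp, rfl⟩
    exact ⟨p.2, p.1, hp, rfl⟩
  · rintro ⟨j, e, he, rfl⟩
    exact ⟨(e, j), he, rfl⟩

theorem mem_arcsE2 {a : Arc} : a ∈ arcsE2 E ↔
    ∃ (j : ℕ) (e : ℕ × ℕ), E[j]? = some e ∧ a = ((4 * j + 3, 4 * e.2 + 2), false) := by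
  simp only [arcsE2, List.mem_map, List.mem_zipIdx_iff_getElem?, eq_comm]
  constructor
  · rintro ⟨p, hp, rfl⟩
    exact ⟨p.2, p.1, hp, rfl⟩
  · rintro ⟨j, e, he, rfl⟩
    exact ⟨(e, j), he, rfl⟩

theorem mem_arcsW {a : Arc} : a ∈ arcsW V ↔ ∃ v ∈ V, a = ((4 * v + 2, 1), true) := by
  simp only [arcsW, List.mem_map, eq_comm]

theorem mem_arcs {a : Arc} : a ∈ arcs V E ↔ a ∈ arcsS V E ∨ a ∈ arcsT V E ∨ a ∈ arcs0 E ∨
    a ∈ arcsE1 E ∨ a ∈ arcsE2 E ∨ a ∈ arcsW V := by
  simp only [arcs, List.mem_append]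

theorem getElem?_mem {j : ℕ} {e : ℕ × ℕ} (h : E[j]? = some e) : e ∈ E ∧ j < E.length :=
  ⟨List.mem_of_getElem? h, (List.getElem?_eq_some_iff.1 h).1⟩

theorem isDigraph (h : IsGraph V E) : IsDigraph (verts V E, arcs V E) := by
  refine ⟨verts_nodup h.1, ?_⟩
  intro a ha
  have hn : 0 < nn E := by unfold nn; omega
  simp only
  rcases mem_arcs.1 ha with h1 | h1 | h1 | h1 | h1 | h1
  · obtain ⟨i, hi, v, hv, _, rfl⟩ := mem_arcsS.1 h1
    exact ⟨hv, mem_verts.2 (Or.inl ⟨i, hi, rfl⟩)⟩
  · obtain ⟨i, hi, v, hv, _, _, rfl⟩ := mem_arcsT.1 h1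
    exact ⟨mem_verts.2 (Or.inr (Or.inl ⟨i, hi, rfl⟩)), hv⟩
  · obtain ⟨j, hj, rfl⟩ := mem_arcs0.1 h1
    exact ⟨mem_verts.2 (Or.inl ⟨0, hn, rfl⟩), mem_verts.2 (Or.inr (Or.inr (Or.inr ⟨j, hj, rfl⟩)))⟩
  · obtain ⟨j, e, he, rfl⟩ := mem_arcsE1.1 h1
    obtain ⟨he, hj⟩ := getElem?_mem he
    exact ⟨mem_verts.2 (Or.inr (Or.inr (Or.inr ⟨j, hj, rfl⟩))),
      mem_verts.2 (Or.inr (Or.inr (Or.inl ⟨_, (h.2.1 e he).1, rfl⟩)))⟩
  · obtain ⟨j, e, he, rfl⟩ := mem_arcsE2.1 h1
    obtain ⟨he, hj⟩ := getElem?_mem he
    exact ⟨mem_verts.2 (Or.inr (Or.inr (Or.inr ⟨j, hj, rfl⟩))),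
      mem_verts.2 (Or.inr (Or.inr (Or.inl ⟨_, (h.2.1 e he).2.1, rfl⟩)))⟩
  · obtain ⟨v, hv, rfl⟩ := mem_arcsW.1 h1
    exact ⟨mem_verts.2 (Or.inr (Or.inr (Or.inl ⟨v, hv, rfl⟩))),
      mem_verts.2 (Or.inr (Or.inl ⟨0, hn, rfl⟩))⟩

theorem arcs_ne {a : Arc} (ha : a ∈ arcs V E) : a.1.1 ≠ a.1.2 := by
  rcases mem_arcs.1 ha with h1 | h1 | h1 | h1 | h1 | h1
  · obtain ⟨i, hi, v, hv, h2, rfl⟩ := mem_arcsS.1 h1
    exact h2
  · obtain ⟨i, hi, v, hv, _, h2, rfl⟩ := mem_arcsT.1 h1
    exact h2.symm
  · obtain ⟨j, hj, rfl⟩ := mem_arcs0.1 h1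
    simp only; omega
  · obtain ⟨j, e, he, rfl⟩ := mem_arcsE1.1 h1
    simp only; omega
  · obtain ⟨j, e, he, rfl⟩ := mem_arcsE2.1 h1
    simp only; omega
  · obtain ⟨v, hv, rfl⟩ := mem_arcsW.1 h1
    simp only; omega

theorem nodup_map_zipIdx {β : Type} {g : (ℕ × ℕ) × ℕ → β} (E : List (ℕ × ℕ))
    (hg : ∀ p ∈ E.zipIdx, ∀ q ∈ E.zipIdx, g p = g q → p.2 = q.2) : (E.zipIdx.map g).Nodup := by
  have h1 : (E.zipIdx.map Prod.snd).Nodup := by
    have : E.zipIdx.map Prod.snd = List.range E.length := by
      apply List.ext_getElem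
      · simp
      · intro i h1 h2; simp
    rw [this]
    exact List.nodup_range
  refine List.Nodup.map_on ?_ (List.Nodup.of_map _ h1)
  intro p hp q hq hpq
  exact List.inj_on_of_nodup_map h1 hp hq (hg p hp q hq hpq)

theorem arcs_fst_nodup (h : IsGraph V E) : ((arcs V E).map Prod.fst).Nodup := by
  have hv := verts_nodup (E := E) h.1
  unfold arcs
  rw [List.map_append, List.map_append, List.map_append, List.map_append, List.map_append]
  refine List.Nodup.append ?_ (List.Nodup.append ?_ (List.Nodup.append ?_ (List.Nodup.append ?_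
    (List.Nodup.append ?_ ?_ ?_) ?_) ?_) ?_) ?_
  · unfold arcsS
    rw [List.map_flatMap, List.nodup_flatMap]
    constructor
    · intro i _
      rw [List.map_map]
      refine List.Nodup.map (fun a b h => ?_) (hv.filter _)
      simp only [Function.comp_apply, Prod.mk.injEq, and_true] at h
      exact h
    · refine List.Pairwise.imp (R := fun a b : ℕ => a ≠ b) ?_ List.nodup_range
      intro a b hab x h1 h2
      simp only [List.map_map, List.mem_map, Function.comp_apply] at h1 h2
      obtain ⟨c, _, rfl⟩ := h1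
      obtain ⟨d, _, h2⟩ := h2
      simp only [Prod.mk.injEq] at h2
      omega
  · unfold arcsT
    rw [List.map_flatMap, List.nodup_flatMap]
    constructor
    · intro i _
      rw [List.map_map]
      refine List.Nodup.map (fun a b h => ?_) (hv.filter _)
      simp only [Function.comp_apply, Prod.mk.injEq, true_and] at h
      exact h
    · refine List.Pairwise.imp (R := fun a b : ℕ => a ≠ b) ?_ List.nodup_range
      intro a b hab x h1 h2
      simp only [List.map_map, List.mem_map, Function.comp_apply] at h1 h2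
      obtain ⟨c, _, rfl⟩ := h1
      obtain ⟨d, _, h2⟩ := h2
      simp only [Prod.mk.injEq] at h2
      omega
  · unfold arcs0
    rw [List.map_map]
    refine List.Nodup.map (fun a b h => ?_) List.nodup_range
    simp only [Function.comp_apply, Prod.mk.injEq, true_and] at h
    omega
  · unfold arcsE1
    rw [List.map_map]
    refine nodup_map_zipIdx E fun p _ q _ h => ?_
    simp only [Function.comp_apply, Prod.mk.injEq] at h
    omega
  · unfold arcsE2
    rw [List.map_map]
    refine nodup_map_zipIdx E fun p _ q _ h => ?_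
    simp only [Function.comp_apply, Prod.mk.injEq] at h
    omega
  · unfold arcsW
    rw [List.map_map]
    refine List.Nodup.map (fun a b h => ?_) h.1
    simp only [Function.comp_apply, Prod.mk.injEq] at h
    omega
  · intro x h1 h2
    simp only [List.mem_map] at h1 h2
    obtain ⟨a, ha, rfl⟩ := h1
    obtain ⟨b, hb, h2⟩ := h2
    obtain ⟨j, e, he, rfl⟩ := mem_arcsE2.1 ha
    obtain ⟨v, hv, rfl⟩ := mem_arcsW.1 hb
    simp only [Prod.mk.injEq] at h2
    omega
  · intro x h1 h2
    simp only [List.mem_map, List.mem_append] at h1 h2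
    obtain ⟨a, ha, rfl⟩ := h1
    obtain ⟨j, e, he, rfl⟩ := mem_arcsE1.1 ha
    rcases h2 with ⟨b, hb, h2⟩ | ⟨b, hb, h2⟩
    · obtain ⟨j', e', he', rfl⟩ := mem_arcsE2.1 hb
      simp only [Prod.mk.injEq] at h2
      have h3 : j' = j := by omega
      subst h3
      rw [he] at he'
      cases he'
      exact (h.2.1 e (getElem?_mem he).1).2.2 (by omega)
    · obtain ⟨v, hv, rfl⟩ := mem_arcsW.1 hb
      simp only [Prod.mk.injEq] at h2
      omega
  · intro x h1 h2
    simp only [List.mem_map, List.mem_append] at h1 h2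
    obtain ⟨a, ha, rfl⟩ := h1
    obtain ⟨j, hj, rfl⟩ := mem_arcs0.1 ha
    rcases h2 with ⟨b, hb, h2⟩ | ⟨b, hb, h2⟩ | ⟨b, hb, h2⟩
    · obtain ⟨j', e', he', rfl⟩ := mem_arcsE1.1 hb
      simp only [Prod.mk.injEq] at h2
      omega
    · obtain ⟨j', e', he', rfl⟩ := mem_arcsE2.1 hb
      simp only [Prod.mk.injEq] at h2
      omega
    · obtain ⟨v, hv, rfl⟩ := mem_arcsW.1 hb
      simp only [Prod.mk.injEq] at h2
      omega
  · intro x h1 h2
    simp only [List.mem_map, List.mem_append] at h1 h2
    obtain ⟨a, ha, rfl⟩ := h1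
    obtain ⟨i, hi, v, hv, h3, h4, rfl⟩ := mem_arcsT.1 ha
    rcases h2 with ⟨b, hb, h2⟩ | ⟨b, hb, h2⟩ | ⟨b, hb, h2⟩ | ⟨b, hb, h2⟩
    · obtain ⟨j', hj', rfl⟩ := mem_arcs0.1 hb
      simp only [Prod.mk.injEq] at h2
      omega
    · obtain ⟨j', e', he', rfl⟩ := mem_arcsE1.1 hb
      simp only [Prod.mk.injEq] at h2
      omega
    · obtain ⟨j', e', he', rfl⟩ := mem_arcsE2.1 hb
      simp only [Prod.mk.injEq] at h2
      omega
    · obtain ⟨v', hv', rfl⟩ := mem_arcsW.1 hb
      simp only [Prod.mk.injEq] at h2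
      omega
  · intro x h1 h2
    simp only [List.mem_map, List.mem_append] at h1 h2
    obtain ⟨a, ha, rfl⟩ := h1
    obtain ⟨i, hi, v, hv, h3, rfl⟩ := mem_arcsS.1 ha
    rcases h2 with ⟨b, hb, h2⟩ | ⟨b, hb, h2⟩ | ⟨b, hb, h2⟩ | ⟨b, hb, h2⟩ | ⟨b, hb, h2⟩
    · obtain ⟨j', hj', v', hv', h4, _, rfl⟩ := mem_arcsT.1 hb
      simp only [Prod.mk.injEq] at h2
      omega
    · obtain ⟨j', hj', rfl⟩ := mem_arcs0.1 hb
      simp only [Prod.mk.injEq] at h2
      omega
    · obtain ⟨j', e', he', rfl⟩ := mem_arcsE1.1 hb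
      simp only [Prod.mk.injEq] at h2
      omega
    · obtain ⟨j', e', he', rfl⟩ := mem_arcsE2.1 hb
      simp only [Prod.mk.injEq] at h2
      omega
    · obtain ⟨v', hv', rfl⟩ := mem_arcsW.1 hb
      simp only [Prod.mk.injEq] at h2
      omega

theorem isSimple (h : IsGraph V E) : IsSimple (verts V E, arcs V E) :=
  ⟨fun _ ha => arcs_ne ha, arcs_fst_nodup h⟩

/-! ### Counting -/

/-- Lower bounds for counts in lists without repetitions. -/
theorem le_countP {A : List Arc} (hA : A.Nodup) {p : Arc → Bool} {ι : Type} [DecidableEq ι]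
    (s : Finset ι) (g : ι → Arc) (hg : ∀ i ∈ s, g i ∈ A ∧ p (g i) = true)
    (hinj : ∀ i ∈ s, ∀ j ∈ s, g i = g j → i = j) : s.card ≤ A.countP p := by
  classical
  rw [List.countP_eq_length_filter, ← List.toFinset_card_of_nodup (hA.filter p)]
  refine Finset.card_le_card_of_injOn g ?_ ?_
  · intro i hi
    have := hg i hi
    simp [this.1, this.2]
  · intro i hi j hj hij
    exact hinj i hi j hj hij

/-- A nonempty set of vertices left by few red arcs contains the first forcing set. -/
theorem subset_S (hA : (arcs V E).Nodup) {X : Finset ℕ} (hX : X ⊆ (verts V E).toFinset)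
    {x : ℕ} (hx : x ∈ X) (hc : (arcs V E).countP (leaves X true) ≤ E.length + 1) :
    ∀ i < nn E, 4 * i ∈ X := by
  intro i₀ hi₀
  by_contra hn
  -- the arcs `(x, s_i)` for `s_i ∉ X` and `(s_i, s_{i₀})` for `s_i ∈ X`, `s_i ≠ x`
  have h1 := le_countP hA (p := leaves X true) ((Finset.range (nn E)).filter (fun i => 4 * i ≠ x))
    (fun i => if 4 * i ∈ X then ((4 * i, 4 * i₀), true) else ((x, 4 * i), true)) ?_ ?_
  · have h2 : nn E ≤ ((Finset.range (nn E)).filter (fun i => 4 * i ≠ x)).card + 1 := by
      have h3 : (Finset.range (nn E)) ⊆ insert (x / 4)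
          ((Finset.range (nn E)).filter (fun i => 4 * i ≠ x)) := by
        intro i hi
        rw [Finset.mem_insert, Finset.mem_filter]
        by_cases h : 4 * i = x
        · left; omega
        · right; exact ⟨hi, h⟩
      calc nn E = (Finset.range (nn E)).card := (Finset.card_range _).symm
        _ ≤ _ := Finset.card_le_card h3
        _ ≤ _ := Finset.card_insert_le _ _
    have hnn : nn E = E.length + 3 := rfl
    omega
  · intro i hi
    rw [Finset.mem_filter, Finset.mem_range] at hi
    have hxv : x ∈ verts V E := List.mem_toFinset.1 (hX hx)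
    split_ifs with h
    · refine ⟨mem_arcs.2 (Or.inl (mem_arcsS.2 ⟨i₀, hi₀, 4 * i,
        mem_verts.2 (Or.inl ⟨i, hi.1, rfl⟩), ?_, rfl⟩)), ?_⟩
      · intro he; rw [he] at h; exact hn h
      · simp [leaves, h, hn]
    · refine ⟨mem_arcs.2 (Or.inl (mem_arcsS.2 ⟨i, hi.1, x, hxv, fun he => hi.2 he.symm, rfl⟩)), ?_⟩
      simp [leaves, h, hx]
  · intro i hi j hj hij
    rw [Finset.mem_filter, Finset.mem_range] at hi hj
    split_ifs at hij with h1 h2 h2
    · simp only [Prod.mk.injEq, and_true] at hij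
      omega
    · simp only [Prod.mk.injEq, and_true] at hij
      exact absurd hij.1 hi.2
    · simp only [Prod.mk.injEq, and_true] at hij
      exact absurd hij.1.symm hj.2
    · simp only [Prod.mk.injEq, and_true, true_and] at hij
      omega

/-- A proper set of vertices which contains the first forcing set and is left by few red arcs is
disjoint from the second forcing set. -/
theorem disjoint_T (hA : (arcs V E).Nodup) {X : Finset ℕ} {y : ℕ} (hyv : y ∈ verts V E)
    (hy : y ∉ X) (hy4 : y % 4 ≠ 0)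
    (hc : (arcs V E).countP (leaves X true) ≤ E.length + 1) :
    ∀ i < nn E, 4 * i + 1 ∉ X := by
  intro i₀ hi₀ hn
  have h1 := le_countP hA (p := leaves X true)
    ((Finset.range (nn E)).filter (fun i => 4 * i + 1 ≠ y))
    (fun i => if 4 * i + 1 ∈ X then ((4 * i + 1, y), true) else
      ((4 * i₀ + 1, 4 * i + 1), true)) ?_ ?_
  · have h2 : nn E ≤ ((Finset.range (nn E)).filter (fun i => 4 * i + 1 ≠ y)).card + 1 := by
      have h3 : (Finset.range (nn E)) ⊆ insert (y / 4)
          ((Finset.range (nn E)).filter (fun i => 4 * i + 1 ≠ y)) := by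
        intro i hi
        rw [Finset.mem_insert, Finset.mem_filter]
        by_cases h : 4 * i + 1 = y
        · left; omega
        · right; exact ⟨hi, h⟩
      calc nn E = (Finset.range (nn E)).card := (Finset.card_range _).symm
        _ ≤ _ := Finset.card_le_card h3
        _ ≤ _ := Finset.card_insert_le _ _
    have hnn : nn E = E.length + 3 := rfl
    omega
  · intro i hi
    rw [Finset.mem_filter, Finset.mem_range] at hi
    split_ifs with h
    · refine ⟨mem_arcs.2 (Or.inr (Or.inl (mem_arcsT.2 ⟨i, hi.1, y, hyv, hy4,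
        fun he => hi.2 he.symm, rfl⟩))), ?_⟩
      simp [leaves, h, hy]
    · refine ⟨mem_arcs.2 (Or.inr (Or.inl (mem_arcsT.2 ⟨i₀, hi₀, 4 * i + 1,
        mem_verts.2 (Or.inr (Or.inl ⟨i, hi.1, rfl⟩)), by omega, ?_, rfl⟩))), ?_⟩
      · intro he; rw [he] at h; exact h hn
      · simp [leaves, h, hn]
  · intro i hi j hj hij
    rw [Finset.mem_filter, Finset.mem_range] at hi hj
    split_ifs at hij with h1 h2 h2
    · simp only [Prod.mk.injEq, and_true] at hij
      omega
    · simp only [Prod.mk.injEq, and_true] at hij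
      exact absurd hij.2.symm hj.2
    · simp only [Prod.mk.injEq, and_true] at hij
      exact absurd hij.2 hi.2
    · simp only [Prod.mk.injEq, and_true, true_and] at hij
      omega

theorem countP_getD (E : List (ℕ × ℕ)) (p : ℕ × ℕ → Bool) :
    E.countP p = ((Finset.range E.length).filter (fun j => p (E.getD j (0, 0)) = true)).card := by
  induction E using List.reverseRecOn with
  | nil => simp
  | append_singleton l a ih =>
    rw [List.countP_append, ih]
    have h0 : (l ++ [a]).length = l.length + 1 := by simp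
    rw [h0, Finset.range_add_one, Finset.filter_insert]
    have h1 : (Finset.range l.length).filter (fun j => p ((l ++ [a]).getD j (0, 0)) = true) =
        (Finset.range l.length).filter (fun j => p (l.getD j (0, 0)) = true) := by
      apply Finset.filter_congr
      intro j hj
      rw [Finset.mem_range] at hj
      rw [List.getD_append _ _ _ _ hj]
    rw [h1]
    have h2 : (l ++ [a]).getD l.length (0, 0) = a := by simp
    rw [h2]
    by_cases hp : p a = true
    · rw [if_pos hp, Finset.card_insert_of_notMem (by simp)]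
      simp [hp]
    · rw [if_neg hp]
      simp [hp]

theorem getD_of_getElem? {j : ℕ} {e : ℕ × ℕ} (h : E[j]? = some e) : E.getD j (0, 0) = e := by
  rw [List.getD_eq_getElem?_getD, h, Option.getD_some]

/-- The correctness of the reduction. -/
theorem clique_iff (h : IsGraph V E) {k : ℕ} (hk : 2 ≤ k) (hm : k.choose 2 ≤ E.length) :
    HasClique V E k ↔ RedBlueCut ((verts V E, arcs V E), (k, E.length - k.choose 2)) := by
  classical
  have hkm : k ≤ E.length + 1 := by
    have h1 : k * (k - 1) / 2 ≤ E.length := by rw [← Nat.choose_two_right]; exact hm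
    obtain ⟨q, rfl⟩ : ∃ q, k = q + 2 := ⟨k - 2, by omega⟩
    have h2 : q + 1 ≤ (q + 2) * (q + 2 - 1) / 2 := by
      rw [Nat.le_div_iff_mul_le (by norm_num)]
      have : q + 2 - 1 = q + 1 := by omega
      rw [this]
      nlinarith
    omega
  have hfst := arcs_fst_nodup h
  have hA : (arcs V E).Nodup := List.Nodup.of_map _ hfst
  rw [hasClique_iff h hk]
  constructor
  · rintro ⟨U, hUV, hcard, hU⟩
    refine ⟨isDigraph h, (verts V E).toFinset.filter (fun x => x % 4 = 0 ∨
      (x % 4 = 2 ∧ x / 4 ∈ U) ∨ (x % 4 = 3 ∧ (E.getD (x / 4) (0, 0)).1 ∈ U ∧ (E.getD (x / 4) (0, 0)).2 ∈ U)),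
      ?_, ?_, ?_, ?_⟩
    · refine ⟨0, ?_⟩
      rw [Finset.mem_filter, List.mem_toFinset]
      exact ⟨mem_verts.2 (Or.inl ⟨0, by unfold nn; omega, rfl⟩), Or.inl rfl⟩
    · rw [Finset.ssubset_iff_of_subset (Finset.filter_subset _ _)]
      refine ⟨1, List.mem_toFinset.2 (mem_verts.2 (Or.inr (Or.inl ⟨0, by unfold nn; omega, rfl⟩))),
        ?_⟩
      rw [Finset.mem_filter]
      rintro ⟨_, h1 | h1 | h1⟩
      · omega
      · omega
      · omega
    · -- red arcs
      change (arcs V E).countP _ ≤ k
      refine le_trans ?_ hcard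
      rw [List.countP_eq_length_filter, ← List.toFinset_card_of_nodup (hA.filter _)]
      refine Finset.card_le_card_of_injOn (fun a => a.1.1 / 4) ?_ ?_
      · intro a ha
        simp only [List.coe_toFinset, Set.mem_ofPred_eq, List.mem_filter] at ha
        obtain ⟨ha, hl⟩ := ha
        simp only [leaves, Bool.and_eq_true, decide_eq_true_eq, Bool.not_eq_true',
          decide_eq_false_iff_not, Finset.mem_filter, List.mem_toFinset] at hl
        obtain ⟨⟨hc, ht⟩, hh⟩ := hl
        rcases mem_arcs.1 ha with h1 | h1 | h1 | h1 | h1 | h1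
        · obtain ⟨i, hi, v, hv, _, rfl⟩ := mem_arcsS.1 h1
          exact absurd ⟨mem_verts.2 (Or.inl ⟨i, hi, rfl⟩), Or.inl (by simp only; omega)⟩ hh
        · obtain ⟨i, hi, v, hv, _, _, rfl⟩ := mem_arcsT.1 h1
          simp only at ht
          rcases ht.2 with h2 | h2 | h2 <;> omega
        · obtain ⟨j, hj, rfl⟩ := mem_arcs0.1 h1
          simp at hc
        · obtain ⟨j, e, he, rfl⟩ := mem_arcsE1.1 h1
          simp at hc
        · obtain ⟨j, e, he, rfl⟩ := mem_arcsE2.1 h1
          simp at hc
        · obtain ⟨v, hv, rfl⟩ := mem_arcsW.1 h1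
          simp only at ht ⊢
          rcases ht.2 with h2 | h2 | h2
          · omega
          · exact h2.2
          · omega
      · intro a ha b hb hab
        simp only [List.coe_toFinset, Set.mem_ofPred_eq, List.mem_filter] at ha hb
        have key : ∀ a : Arc, a ∈ arcs V E → leaves ((verts V E).toFinset.filter (fun x =>
            x % 4 = 0 ∨ (x % 4 = 2 ∧ x / 4 ∈ U) ∨
            (x % 4 = 3 ∧ (E.getD (x / 4) (0, 0)).1 ∈ U ∧ (E.getD (x / 4) (0, 0)).2 ∈ U))) true a = true →
            ∃ v, a = ((4 * v + 2, 1), true) := by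
          intro a ha hl
          simp only [leaves, Bool.and_eq_true, decide_eq_true_eq, Bool.not_eq_true',
            decide_eq_false_iff_not, Finset.mem_filter, List.mem_toFinset] at hl
          obtain ⟨⟨hc, ht⟩, hh⟩ := hl
          rcases mem_arcs.1 ha with h1 | h1 | h1 | h1 | h1 | h1
          · obtain ⟨i, hi, v, hv, _, rfl⟩ := mem_arcsS.1 h1
            exact absurd ⟨mem_verts.2 (Or.inl ⟨i, hi, rfl⟩), Or.inl (by simp only; omega)⟩ hh
          · obtain ⟨i, hi, v, hv, _, _, rfl⟩ := mem_arcsT.1 h1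
            simp only at ht
            rcases ht.2 with h2 | h2 | h2 <;> omega
          · obtain ⟨j, hj, rfl⟩ := mem_arcs0.1 h1
            simp at hc
          · obtain ⟨j, e, he, rfl⟩ := mem_arcsE1.1 h1
            simp at hc
          · obtain ⟨j, e, he, rfl⟩ := mem_arcsE2.1 h1
            simp at hc
          · obtain ⟨v, hv, rfl⟩ := mem_arcsW.1 h1
            exact ⟨v, rfl⟩
        obtain ⟨v, rfl⟩ := key a ha.1 ha.2
        obtain ⟨w, rfl⟩ := key b hb.1 hb.2
        simp only at hab
        have : v = w := by omega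
        rw [this]
    · -- blue arcs
      change (arcs V E).countP _ ≤ E.length - k.choose 2
      have hcount : (arcs V E).countP (leaves ((verts V E).toFinset.filter (fun x => x % 4 = 0 ∨
          (x % 4 = 2 ∧ x / 4 ∈ U) ∨ (x % 4 = 3 ∧ (E.getD (x / 4) (0, 0)).1 ∈ U ∧ (E.getD (x / 4) (0, 0)).2 ∈ U)))
          false) + inside E U ≤ E.length := by
        rw [List.countP_eq_length_filter, ← List.toFinset_card_of_nodup (hA.filter _)]
        unfold inside
        rw [countP_getD]
        have hle : (List.filter (leaves ((verts V E).toFinset.filter (fun x => x % 4 = 0 ∨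
          (x % 4 = 2 ∧ x / 4 ∈ U) ∨ (x % 4 = 3 ∧ (E.getD (x / 4) (0, 0)).1 ∈ U ∧ (E.getD (x / 4) (0, 0)).2 ∈ U)))
          false) (arcs V E)).toFinset.card ≤ ((Finset.range E.length).filter (fun j =>
            ¬ (decide ((E.getD j (0, 0)).1 ∈ U) && decide ((E.getD j (0, 0)).2 ∈ U)) = true)).card := by
          have key : ∀ a : Arc, a ∈ arcs V E → leaves ((verts V E).toFinset.filter (fun x =>
            x % 4 = 0 ∨ (x % 4 = 2 ∧ x / 4 ∈ U) ∨
            (x % 4 = 3 ∧ (E.getD (x / 4) (0, 0)).1 ∈ U ∧ (E.getD (x / 4) (0, 0)).2 ∈ U))) false a = true →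
            ∃ j < E.length, a = ((0, 4 * j + 3), false) ∧
              ¬ (decide ((E.getD j (0, 0)).1 ∈ U) && decide ((E.getD j (0, 0)).2 ∈ U)) = true := by
            intro a ha hl
            simp only [leaves, Bool.and_eq_true, decide_eq_true_eq, Bool.not_eq_true',
              decide_eq_false_iff_not, Finset.mem_filter, List.mem_toFinset] at hl
            obtain ⟨⟨hc, ht⟩, hh⟩ := hl
            rcases mem_arcs.1 ha with h1 | h1 | h1 | h1 | h1 | h1
            · obtain ⟨i, hi, v, hv, _, rfl⟩ := mem_arcsS.1 h1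
              simp at hc
            · obtain ⟨i, hi, v, hv, _, _, rfl⟩ := mem_arcsT.1 h1
              simp at hc
            · obtain ⟨j, hj, rfl⟩ := mem_arcs0.1 h1
              refine ⟨j, hj, rfl, ?_⟩
              intro hU
              simp only [Bool.and_eq_true, decide_eq_true_eq] at hU
              refine hh ⟨mem_verts.2 (Or.inr (Or.inr (Or.inr ⟨j, hj, rfl⟩))), Or.inr (Or.inr
                ⟨by simp only; omega, ?_⟩)⟩
              have : (4 * j + 3) / 4 = j := by omega
              simp only [this]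
              exact hU
            · obtain ⟨j, e, he, rfl⟩ := mem_arcsE1.1 h1
              exfalso
              simp only at ht
              rcases ht.2 with h2 | h2 | h2
              · omega
              · omega
              · obtain ⟨_, hU1, _⟩ := h2
                have : (4 * j + 3) / 4 = j := by omega
                rw [this, getD_of_getElem? he] at hU1
                refine hh ⟨mem_verts.2 (Or.inr (Or.inr (Or.inl ⟨e.1,
                  (h.2.1 e (getElem?_mem he).1).1, rfl⟩))), Or.inr (Or.inl ⟨by simp only; omega, ?_⟩)⟩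
                have : (4 * e.1 + 2) / 4 = e.1 := by omega
                simp only [this]
                exact hU1
            · obtain ⟨j, e, he, rfl⟩ := mem_arcsE2.1 h1
              exfalso
              simp only at ht
              rcases ht.2 with h2 | h2 | h2
              · omega
              · omega
              · obtain ⟨_, _, hU1⟩ := h2
                have : (4 * j + 3) / 4 = j := by omega
                rw [this, getD_of_getElem? he] at hU1
                refine hh ⟨mem_verts.2 (Or.inr (Or.inr (Or.inl ⟨e.2,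
                  (h.2.1 e (getElem?_mem he).1).2.1, rfl⟩))), Or.inr (Or.inl ⟨by simp only; omega, ?_⟩)⟩
                have : (4 * e.2 + 2) / 4 = e.2 := by omega
                simp only [this]
                exact hU1
            · obtain ⟨v, hv, rfl⟩ := mem_arcsW.1 h1
              simp at hc
          refine Finset.card_le_card_of_injOn (fun a => a.1.2 / 4) ?_ ?_
          · intro a ha
            simp only [List.coe_toFinset, Set.mem_ofPred_eq, List.mem_filter] at ha
            obtain ⟨j, hj, rfl, hno⟩ := key a ha.1 ha.2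
            have e1 : (4 * j + 3) / 4 = j := by omega
            simp only [Finset.coe_filter, Finset.mem_range, Set.mem_ofPred_eq, e1]
            exact ⟨hj, hno⟩
          · intro a ha b hb hab
            simp only [List.coe_toFinset, Set.mem_ofPred_eq, List.mem_filter] at ha hb
            obtain ⟨j, hj, rfl, _⟩ := key a ha.1 ha.2
            obtain ⟨j', hj', rfl, _⟩ := key b hb.1 hb.2
            simp only at hab
            have : j = j' := by omega
            rw [this]
        have hsum := Finset.card_filter_add_card_filter_not (s := Finset.range E.length) (fun j =>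
          (decide ((E.getD j (0, 0)).1 ∈ U) && decide ((E.getD j (0, 0)).2 ∈ U)) = true)
        rw [Finset.card_range] at hsum
        omega
      omega
  · rintro ⟨_, X, ⟨x, hx⟩, hXp, hred, hblue⟩
    simp only [cutSize] at hred hblue
    have hS := subset_S hA hXp.1 hx (hred.trans hkm)
    obtain ⟨y, hyv, hyX⟩ := Finset.exists_of_ssubset hXp
    rw [List.mem_toFinset] at hyv
    have hy4 : y % 4 ≠ 0 := by
      intro h4
      rcases mem_verts.1 hyv with ⟨i, hi, rfl⟩ | ⟨i, hi, rfl⟩ | ⟨i, hi, rfl⟩ | ⟨i, hi, rfl⟩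
      · exact hyX (hS i hi)
      · omega
      · omega
      · omega
    have hT := disjoint_T hA hyv hyX hy4 (hred.trans hkm)
    have h0 : (0 : ℕ) ∈ X := by simpa using hS 0 (by unfold nn; omega)
    have h1X : (1 : ℕ) ∉ X := by simpa using hT 0 (by unfold nn; omega)
    refine ⟨V.toFinset.filter (fun v => 4 * v + 2 ∈ X), ?_, ?_, ?_⟩
    · intro v hv
      rw [Finset.mem_filter, List.mem_toFinset] at hv
      exact hv.1
    · refine le_trans (le_countP hA _ (fun v => ((4 * v + 2, 1), true)) ?_ ?_) hred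
      · intro v hv
        rw [Finset.mem_filter, List.mem_toFinset] at hv
        refine ⟨mem_arcs.2 (Or.inr (Or.inr (Or.inr (Or.inr (Or.inr (mem_arcsW.2
          ⟨v, hv.1, rfl⟩)))))), ?_⟩
        simp [leaves, hv.2, h1X]
      · intro v _ w _ hvw
        simp only [Prod.mk.injEq, and_true] at hvw
        omega
    · have hsum := Finset.card_filter_add_card_filter_not (s := Finset.range E.length) (fun j =>
        (decide ((E.getD j (0, 0)).1 ∈ V.toFinset.filter (fun v => 4 * v + 2 ∈ X)) &&
          decide ((E.getD j (0, 0)).2 ∈ V.toFinset.filter (fun v => 4 * v + 2 ∈ X))) = true)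
      rw [Finset.card_range] at hsum
      have hge := le_countP hA (p := leaves X false) ((Finset.range E.length).filter (fun j =>
        ¬ (decide ((E.getD j (0, 0)).1 ∈ V.toFinset.filter (fun v => 4 * v + 2 ∈ X)) &&
          decide ((E.getD j (0, 0)).2 ∈ V.toFinset.filter (fun v => 4 * v + 2 ∈ X))) = true))
        (fun j => if 4 * j + 3 ∈ X then
          (if 4 * (E.getD j (0, 0)).1 + 2 ∈ X then
            ((4 * j + 3, 4 * (E.getD j (0, 0)).2 + 2), false)
          else ((4 * j + 3, 4 * (E.getD j (0, 0)).1 + 2), false))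
          else ((0, 4 * j + 3), false)) ?_ ?_
      · unfold inside
        rw [countP_getD]
        omega
      · intro j hj
        rw [Finset.mem_filter, Finset.mem_range] at hj
        obtain ⟨hj, hno⟩ := hj
        have he : E[j]? = some (E.getD j (0, 0)) := by
          rw [List.getD_eq_getElem _ _ hj, List.getElem?_eq_getElem hj]
        have hev := h.2.1 _ (getElem?_mem he).1
        split_ifs with h2 h3
        · refine ⟨mem_arcs.2 (Or.inr (Or.inr (Or.inr (Or.inr (Or.inl (mem_arcsE2.2
            ⟨j, _, he, rfl⟩)))))), ?_⟩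
          have h4 : 4 * (E.getD j (0, 0)).2 + 2 ∉ X := by
            intro h4
            refine hno ?_
            simp only [Bool.and_eq_true, decide_eq_true_eq, Finset.mem_filter, List.mem_toFinset]
            exact ⟨⟨hev.1, h3⟩, hev.2.1, h4⟩
          simp only [leaves, h2, h4, decide_true, decide_false, Bool.not_false, Bool.and_self]
        · refine ⟨mem_arcs.2 (Or.inr (Or.inr (Or.inr (Or.inl (mem_arcsE1.2
            ⟨j, _, he, rfl⟩))))), ?_⟩
          simp only [leaves, h2, h3, decide_true, decide_false, Bool.not_false, Bool.and_self]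
        · refine ⟨mem_arcs.2 (Or.inr (Or.inr (Or.inl (mem_arcs0.2 ⟨j, hj, rfl⟩)))), ?_⟩
          simp only [leaves, h2, h0, decide_true, decide_false, Bool.not_false, Bool.and_self]
      · intro i _ j _ hij
        split_ifs at hij <;> simp only [Prod.mk.injEq, and_true] at hij <;> omega

end

/-! ### Polynomial time -/

section poly
variable {α : Type} [TEnc α] {V : α → List ℕ} {E : α → List (ℕ × ℕ)}

theorem upoly_nn (hE : Poly E) : UPoly (fun a => nn (E a)) :=
  UPoly.add (UPoly.length hE) (UPoly.const 3)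

theorem poly_lin {n : α → ℕ} (hn : Poly n) (c : ℕ) : Poly (fun a => 4 * n a + c) :=
  Poly.add (Poly.mul (Poly.const 4) hn) (Poly.const c)

theorem poly_verts (hV : Poly V) (hE : Poly E) : Poly (fun a => verts (V a) (E a)) := by
  have hr := (upoly_nn hE).range
  refine Poly.append (Poly.map (F := fun _ i => 4 * i) hr (Poly.mul (Poly.const 4)
    (Poly.snd Poly.id))) (Poly.append (Poly.map (F := fun _ i => 4 * i + 1) hr
    (poly_lin (Poly.snd Poly.id) 1)) (Poly.append (Poly.map (F := fun _ i => 4 * i + 2) hV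
    (poly_lin (Poly.snd Poly.id) 2)) (Poly.map (F := fun _ i => 4 * i + 3)
    (Poly.range_length hE) (poly_lin (Poly.snd Poly.id) 3))))

theorem poly_arcsS (hV : Poly V) (hE : Poly E) : Poly (fun a => arcsS (V a) (E a)) := by
  refine Poly.flatMap (F := fun a i =>
    ((verts (V a) (E a)).filter fun v => !decide (v = 4 * i)).map fun v => ((v, 4 * i), true))
    (upoly_nn hE).range ?_
  refine Poly.map (F := fun (p : α × ℕ) (v : ℕ) => ((v, 4 * p.2), true)) ?_ ?_
  · refine Poly.filter (p := fun (p : α × ℕ) (v : ℕ) => !decide (v = 4 * p.2))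
      ((poly_verts hV hE).comp (Poly.fst Poly.id)) ?_
    exact Poly.not (Poly.decide_eq (Poly.snd Poly.id) (Poly.mul (Poly.const 4)
      (Poly.snd (Poly.fst Poly.id))))
  · exact Poly.pair (Poly.pair (Poly.snd Poly.id) (Poly.mul (Poly.const 4)
      (Poly.snd (Poly.fst Poly.id)))) (Poly.const true)

theorem poly_arcsT (hV : Poly V) (hE : Poly E) : Poly (fun a => arcsT (V a) (E a)) := by
  refine Poly.flatMap (F := fun a j =>
    ((verts (V a) (E a)).filter fun v => !decide (v % 4 = 0) && !decide (v = 4 * j + 1)).map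
      fun v => ((4 * j + 1, v), true))
    (upoly_nn hE).range ?_
  refine Poly.map (F := fun (p : α × ℕ) (v : ℕ) => ((4 * p.2 + 1, v), true)) ?_ ?_
  · refine Poly.filter (p := fun (p : α × ℕ) (v : ℕ) =>
      !decide (v % 4 = 0) && !decide (v = 4 * p.2 + 1))
      ((poly_verts hV hE).comp (Poly.fst Poly.id)) ?_
    exact Poly.and (Poly.not (Poly.decide_eq (Poly.mod (Poly.snd Poly.id) (Poly.const 4))
      (Poly.const 0))) (Poly.not (Poly.decide_eq (Poly.snd Poly.id) (poly_lin
      (Poly.snd (Poly.fst Poly.id)) 1)))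
  · exact Poly.pair (Poly.pair (poly_lin (Poly.snd (Poly.fst Poly.id)) 1) (Poly.snd Poly.id))
      (Poly.const true)

theorem poly_arcs (hV : Poly V) (hE : Poly E) : Poly (fun a => arcs (V a) (E a)) := by
  refine Poly.append (poly_arcsS hV hE) (Poly.append (poly_arcsT hV hE) (Poly.append ?_
    (Poly.append ?_ (Poly.append ?_ ?_))))
  · exact Poly.map (F := fun _ (j : ℕ) => ((0, 4 * j + 3), false)) (Poly.range_length hE)
      (Poly.pair (Poly.pair (Poly.const 0) (poly_lin (Poly.snd Poly.id) 3)) (Poly.const false))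
  · exact Poly.map (F := fun _ (p : (ℕ × ℕ) × ℕ) => ((4 * p.2 + 3, 4 * p.1.1 + 2), false))
      (Poly.zipIdx hE) (Poly.pair (Poly.pair (poly_lin (Poly.snd (Poly.snd Poly.id)) 3)
      (poly_lin (Poly.fst (Poly.fst (Poly.snd Poly.id))) 2)) (Poly.const false))
  · exact Poly.map (F := fun _ (p : (ℕ × ℕ) × ℕ) => ((4 * p.2 + 3, 4 * p.1.2 + 2), false))
      (Poly.zipIdx hE) (Poly.pair (Poly.pair (poly_lin (Poly.snd (Poly.snd Poly.id)) 3)
      (poly_lin (Poly.snd (Poly.fst (Poly.snd Poly.id))) 2)) (Poly.const false))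
  · exact Poly.map (F := fun _ (v : ℕ) => ((4 * v + 2, 1), true)) hV
      (Poly.pair (Poly.pair (poly_lin (Poly.snd Poly.id) 2) (Poly.const 1)) (Poly.const true))

end poly

/-- an instance without solution -/
def noInst : Inst := (([0, 1], [((0, 1), true), ((1, 0), true)]), (0, 0))

theorem noInst_digraph : IsDigraph noInst.1 ∧ IsSimple noInst.1 := by
  refine ⟨⟨by simp [noInst], by simp [noInst]⟩, by simp [noInst], by simp [noInst]⟩

theorem not_noInst : ¬ RedBlueCut noInst := by
  rintro ⟨_, X, ⟨x, hx⟩, hX, hred, _⟩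
  have hX' : ∀ y ∈ X, y = 0 ∨ y = 1 := by
    intro y hy
    have := hX.1 hy
    simpa [noInst] using this
  have hcount : cutSize noInst.1 true X = (if 0 ∈ X ∧ 1 ∉ X then 1 else 0) +
      (if 1 ∈ X ∧ 0 ∉ X then 1 else 0) := by
    by_cases h0 : 0 ∈ X <;> by_cases h1 : 1 ∈ X <;> simp [cutSize, noInst, leaves, h0, h1]
  have hred' : cutSize noInst.1 true X ≤ 0 := hred
  rw [hcount] at hred'
  have hnot : ¬ (0 ∈ X ∧ 1 ∈ X) := by
    rintro ⟨h0, h1⟩
    apply hX.2
    intro y hy
    simp only [noInst, List.mem_toFinset, List.mem_cons, List.not_mem_nil, or_false] at hy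
    rcases hy with rfl | rfl
    · exact h0
    · exact h1
  rcases hX' x hx with rfl | rfl
  · have h1 : 1 ∉ X := fun h1 => hnot ⟨hx, h1⟩
    simp [hx, h1] at hred'
  · have h0 : 0 ∉ X := fun h0 => hnot ⟨h0, hx⟩
    simp [hx, h0] at hred'

/-- The reduction from the clique problem. -/
def red (I : (List ℕ × List (ℕ × ℕ)) × ℕ) : Inst :=
  if I.2 * (I.2 - 1) / 2 ≤ I.1.2.length then
    ((verts I.1.1 I.1.2, arcs I.1.1 I.1.2), (I.2, I.1.2.length - I.2 * (I.2 - 1) / 2))
  else noInst

theorem poly_red : Poly red := by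
  have hc : Poly (fun I : (List ℕ × List (ℕ × ℕ)) × ℕ => I.2 * (I.2 - 1) / 2) :=
    Poly.div (Poly.mul (Poly.snd Poly.id) (Poly.sub (Poly.snd Poly.id) (Poly.const 1)))
      (Poly.const 2)
  have hV : Poly (fun I : (List ℕ × List (ℕ × ℕ)) × ℕ => I.1.1) := Poly.fst (Poly.fst Poly.id)
  have hE : Poly (fun I : (List ℕ × List (ℕ × ℕ)) × ℕ => I.1.2) := Poly.snd (Poly.fst Poly.id)
  exact Poly.ite (Poly.decide_le hc (Poly.length hE)) (Poly.pair (Poly.pair (poly_verts hV hE)
    (poly_arcs hV hE)) (Poly.pair (Poly.snd Poly.id) (Poly.sub (Poly.length hE) hc)))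
    (Poly.const _)

theorem hardPr_redBlueCut :
    HardPr (fun I : Inst => IsDigraph I.1 ∧ IsSimple I.1) RedBlueCut := by
  refine hardPr_CLIQUE.trans poly_red ?_ ?_
  · rintro ⟨⟨V, E⟩, k⟩ ⟨h, _⟩
    unfold red
    split_ifs with hc
    · exact ⟨isDigraph h, isSimple h⟩
    · exact noInst_digraph
  · rintro ⟨⟨V, E⟩, k⟩ ⟨h, hk⟩
    simp only at h hk
    have hcl : CLIQUE ((V, E), k) ↔ HasClique V E k := ⟨fun h' => h'.2, fun h' => ⟨h, h'⟩⟩
    rw [hcl]
    unfold red
    simp only
    rw [← Nat.choose_two_right]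
    split_ifs with hc
    · exact clique_iff h hk hc
    · refine ⟨fun h' => absurd ?_ hc, fun h' => absurd h' not_noInst⟩
      obtain ⟨U, _, _, hU⟩ := (hasClique_iff h hk).1 h'
      exact hU.trans List.countP_le_length

/-! ### Membership in `NP` -/

/-- the test for repetitions -/
def nodupB (l : List ℕ) : Bool :=
  (List.range l.length).all fun i => (List.range l.length).all fun j =>
    decide (i = j) || !decide (l.getD i 0 = l.getD j 0)

theorem nodupB_iff {l : List ℕ} : nodupB l = true ↔ l.Nodup := by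
  unfold nodupB
  rw [List.nodup_iff_injective_getElem]
  simp only [List.all_eq_true, List.mem_range, Bool.or_eq_true, decide_eq_true_eq,
    Bool.not_eq_true', decide_eq_false_iff_not]
  constructor
  · intro h i j hij
    rcases h i i.2 j j.2 with h1 | h1
    · exact Fin.ext h1
    · rw [List.getD_eq_getElem _ _ i.2, List.getD_eq_getElem _ _ j.2] at h1
      exact absurd hij h1
  · intro h i hi j hj
    by_cases hij : i = j
    · exact Or.inl hij
    · right
      rw [List.getD_eq_getElem _ _ hi, List.getD_eq_getElem _ _ hj]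
      intro he
      have := @h ⟨i, hi⟩ ⟨j, hj⟩ he
      simp only [Fin.mk.injEq] at this
      exact hij this

theorem poly_nodupB {α : Type} [TEnc α] {l : α → List ℕ} (hl : Poly l) :
    Poly (fun a => nodupB (l a)) := by
  refine Poly.all (p := fun a i => (List.range (l a).length).all fun j =>
    decide (i = j) || !decide ((l a).getD i 0 = (l a).getD j 0)) (Poly.range_length hl) ?_
  refine Poly.all (p := fun (p : α × ℕ) j =>
    decide (p.2 = j) || !decide ((l p.1).getD p.2 0 = (l p.1).getD j 0))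
    (Poly.range_length (hl.comp (Poly.fst Poly.id))) ?_
  have h1 : Poly (fun p : (α × ℕ) × ℕ => p.1.2) := Poly.snd (Poly.fst Poly.id)
  have h2 : Poly (fun p : (α × ℕ) × ℕ => p.2) := Poly.snd Poly.id
  have h3 : Poly (fun p : (α × ℕ) × ℕ => l p.1.1) := hl.comp (Poly.fst (Poly.fst Poly.id))
  exact Poly.or (Poly.decide_eq h1 h2) (Poly.not (Poly.decide_eq (Poly.getD h3 h1 (Poly.const 0))
    (Poly.getD h3 h2 (Poly.const 0))))

/-- the arc `a` of colour `c` leaves the listed set -/
def leavesL (w : List ℕ) (c : Bool) (a : Arc) : Bool :=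
  decide (a.2 = c) && decide (a.1.1 ∈ w) && !decide (a.1.2 ∈ w)

/-- the test of certificates: a list of the vertices in the set -/
def check (p : Inst × List ℕ) : Bool :=
  nodupB p.1.1.1 && (p.1.1.2.all (fun a => decide (a.1.1 ∈ p.1.1.1) && decide (a.1.2 ∈ p.1.1.1)) &&
    (!p.2.isEmpty && (p.2.all (fun v => decide (v ∈ p.1.1.1)) &&
      (p.1.1.1.any (fun v => !decide (v ∈ p.2)) &&
        (decide ((p.1.1.2.filter (leavesL p.2 true)).length ≤ p.1.2.1) &&
          decide ((p.1.1.2.filter (leavesL p.2 false)).length ≤ p.1.2.2))))))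

theorem poly_check : Poly check := by
  have hV : Poly (fun p : Inst × List ℕ => p.1.1.1) := Poly.fst (Poly.fst (Poly.fst Poly.id))
  have hA : Poly (fun p : Inst × List ℕ => p.1.1.2) := Poly.snd (Poly.fst (Poly.fst Poly.id))
  have hw : Poly (fun p : Inst × List ℕ => p.2) := Poly.snd Poly.id
  have hl : ∀ c : Bool, Poly (fun p : Inst × List ℕ =>
      (p.1.1.2.filter (leavesL p.2 c)).length) := by
    intro c
    refine Poly.length (Poly.filter (p := fun p a => leavesL p.2 c a) hA ?_)
    have h1 : Poly (fun q : (Inst × List ℕ) × Arc => q.1.2) := hw.comp (Poly.fst Poly.id)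
    have h2 : Poly (fun q : (Inst × List ℕ) × Arc => q.2) := Poly.snd Poly.id
    exact Poly.and (Poly.and (Poly.decide_eq (Poly.snd h2) (Poly.const c))
      (Poly.decide_mem (Poly.fst (Poly.fst h2)) h1))
      (Poly.not (Poly.decide_mem (Poly.snd (Poly.fst h2)) h1))
  refine Poly.and (poly_nodupB hV) (Poly.and ?_ (Poly.and (Poly.not (Poly.isEmpty hw))
    (Poly.and ?_ (Poly.and ?_ (Poly.and (Poly.decide_le (hl true) (Poly.fst (Poly.snd
      (Poly.fst Poly.id)))) (Poly.decide_le (hl false) (Poly.snd (Poly.snd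
      (Poly.fst Poly.id)))))))))
  · refine Poly.all (p := fun (p : Inst × List ℕ) a => decide (a.1.1 ∈ p.1.1.1) &&
      decide (a.1.2 ∈ p.1.1.1)) hA ?_
    have h1 : Poly (fun q : (Inst × List ℕ) × Arc => q.1.1.1.1) := hV.comp (Poly.fst Poly.id)
    have h2 : Poly (fun q : (Inst × List ℕ) × Arc => q.2) := Poly.snd Poly.id
    exact Poly.and (Poly.decide_mem (Poly.fst (Poly.fst h2)) h1)
      (Poly.decide_mem (Poly.snd (Poly.fst h2)) h1)
  · exact Poly.all (p := fun (p : Inst × List ℕ) v => decide (v ∈ p.1.1.1)) hw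
      (Poly.decide_mem (Poly.snd Poly.id) (hV.comp (Poly.fst Poly.id)))
  · exact Poly.any (p := fun (p : Inst × List ℕ) v => !decide (v ∈ p.2)) hV
      (Poly.not (Poly.decide_mem (Poly.snd Poly.id) (hw.comp (Poly.fst Poly.id))))

theorem sz_filter_le {β : Type} [TEnc β] (p : β → Bool) (l : List β) : sz (l.filter p) ≤ sz l := by
  induction l with
  | nil => simp
  | cons b l ih =>
    cases h : p b
    · rw [List.filter_cons_of_neg (by simpa using h)]
      simp only [sz_list_cons]
      omega
    · rw [List.filter_cons_of_pos h]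
      simp only [sz_list_cons]
      omega

theorem leavesL_eq (w : List ℕ) (c : Bool) : leavesL w c = leaves w.toFinset c := by
  funext a
  simp [leavesL, leaves]

theorem check_iff (I : Inst) (w : List ℕ) : check (I, w) = true ↔ IsDigraph I.1 ∧
    w.toFinset.Nonempty ∧ w.toFinset ⊂ I.1.1.toFinset ∧
    cutSize I.1 true w.toFinset ≤ I.2.1 ∧ cutSize I.1 false w.toFinset ≤ I.2.2 := by
  unfold check
  simp only [Bool.and_eq_true, nodupB_iff, decide_eq_true_eq, leavesL_eq, ← List.countP_eq_length_filter]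
  have h1 : (I.1.2.all fun a => decide (a.1.1 ∈ I.1.1) && decide (a.1.2 ∈ I.1.1)) = true ↔
      ∀ a ∈ I.1.2, a.1.1 ∈ I.1.1 ∧ a.1.2 ∈ I.1.1 := by
    simp only [List.all_eq_true, Bool.and_eq_true, decide_eq_true_eq]
  have h2 : (!w.isEmpty) = true ↔ w.toFinset.Nonempty := by
    cases w <;> simp
  have h3 : ((w.all fun v => decide (v ∈ I.1.1)) = true ∧
      (I.1.1.any fun v => !decide (v ∈ w)) = true) ↔ w.toFinset ⊂ I.1.1.toFinset := by
    simp only [List.all_eq_true, decide_eq_true_eq, List.any_eq_true, Bool.not_eq_true',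
      decide_eq_false_iff_not]
    constructor
    · rintro ⟨h4, v, hv, hvw⟩
      refine ⟨fun x hx => List.mem_toFinset.2 (h4 x (List.mem_toFinset.1 hx)), fun h5 => hvw ?_⟩
      exact List.mem_toFinset.1 (h5 (List.mem_toFinset.2 hv))
    · intro h4
      obtain ⟨y, hy, hyw⟩ := Finset.exists_of_ssubset h4
      exact ⟨fun x hx => List.mem_toFinset.1 (h4.1 (List.mem_toFinset.2 hx)), y,
        List.mem_toFinset.1 hy, fun h => hyw (List.mem_toFinset.2 h)⟩
  unfold IsDigraph cutSize
  rw [h1, h2, ← h3]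
  tauto

theorem inNP : InNPP RedBlueCut := by
  refine inNPP_of poly_check Polynomial.X fun I => ?_
  constructor
  · rintro ⟨hD, X, hX, hXp, hr, hb⟩
    refine ⟨I.1.1.filter (fun v => decide (v ∈ X)), ?_, ?_⟩
    · have h1 := sz_filter_le (fun v => decide (v ∈ X)) I.1.1
      have h2 : sz I.1.1 ≤ sz I := by
        obtain ⟨⟨V, A⟩, r⟩ := I
        simp only [sz_pair]
        omega
      simpa using h1.trans h2
    · rw [check_iff]
      have h1 : (I.1.1.filter (fun v => decide (v ∈ X))).toFinset = X := by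
        ext v
        simp only [List.mem_toFinset, List.mem_filter, decide_eq_true_eq]
        exact ⟨fun h => h.2, fun h => ⟨List.mem_toFinset.1 (hXp.1 h), h⟩⟩
      rw [h1]
      exact ⟨hD, hX, hXp, hr, hb⟩
  · rintro ⟨w, _, hw⟩
    rw [check_iff] at hw
    exact ⟨hw.1, w.toFinset, hw.2⟩

end Pool.Agent.NPC.RedBlue129

namespace Pool.Agent.Results.MP_ac2b6c_lc.DirectedCutNPComplete

open Pool.Agent.NPC Pool.Agent.NPC.RedBlue129

/-- **The red-blue cut problem for digraphs is NP-complete.** (1) It is in `NP`. (2) Every language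
in `NP` has a polynomial-time many-one reduction to it all of whose values are digraphs without
loops and without parallel arcs. (3) There is a polynomial-time algorithm which decides it for all
arc-coloured digraphs if and only if `P = NP`. -/
theorem result : InNPP RedBlueCut ∧
    (∀ L : Set (List Bool), InNP L → ∃ f : List Bool → Inst, PolyTime (fun x => bits (f x)) ∧
      (∀ x, IsDigraph (f x).1 ∧ IsSimple (f x).1) ∧ ∀ x, x ∈ L ↔ RedBlueCut (f x)) ∧
    ((∃ A : List Bool → List Bool, PolyTime A ∧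
      ∀ I : Inst, IsDigraph I.1 → (A (bits I) = [true] ↔ RedBlueCut I)) ↔
      ∀ L : Set (List Bool), InNP L → InP L) := by
  have hard : ∀ L : Set (List Bool), InNP L → ∃ f : List Bool → Inst,
      PolyTime (fun x => bits (f x)) ∧
      (∀ x, IsDigraph (f x).1 ∧ IsSimple (f x).1) ∧ ∀ x, x ∈ L ↔ RedBlueCut (f x) := by
    intro L hL
    obtain ⟨f, hf, hpr, hfL⟩ := hardPr_redBlueCut L hL
    exact ⟨f, PC.toPolyTime hf, hpr, hfL⟩
  refine ⟨inNP, hard, ?_, ?_⟩
  · rintro ⟨A, hA, h⟩ L hL
    obtain ⟨f, hf, hpr, hfL⟩ := hard L hL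
    exact ⟨fun x => A (bits (f x)), H642R2.TMSim.polyTime_comp hA hf, fun x =>
      (hfL x).trans (h (f x) (hpr x).1).symm⟩
  · intro h
    obtain ⟨A, hA, hA'⟩ := h _ inNP
    exact ⟨A, hA, fun I _ => by rw [← hA', bits_mem_lang]⟩

end Pool.Agent.Results.MP_ac2b6c_lc.DirectedCutNPComplete
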